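import Mathlib
import Pool.Agent.H710R2.DP.Defs
import Pool.Agent.H710R2.DP.Defs2
import Pool.Agent.H710R2.DP.Tasks

set_option linter.all false

open scoped ComplexOrder InnerProductSpace ComplexConjugate
open Finset

noncomputable section

namespace H710R2.DP

open H759R2.Kad

namespace RB

section closed

variable {B : Type} [CStarAlgebra B]

/-- the commutant of a family -/
def cent {L : ℕ} (e' : Fin L → Fin L → B) : StarSubalgebra ℂ B :=
  StarSubalgebra.centralizer ℂ (Set.range fun ij : Fin L × Fin L => e' ij.1 ij.2)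

theorem mem_cent {L : ℕ} {e' : Fin L → Fin L → B} (hs : ∀ i j, star (e' i j) = e' j i) (b : B) :
    b ∈ cent e' ↔ ∀ i j, e' i j * b = b * e' i j := by
  unfold cent
  rw [StarSubalgebra.mem_centralizer_iff]
  constructor
  · intro h i j
    exact (h _ ⟨(i, j), rfl⟩).1
  · rintro h _ ⟨⟨i, j⟩, rfl⟩
    refine ⟨h i j, ?_⟩
    show star (e' i j) * b = b * star (e' i j)
    rw [hs]
    exact h j i

theorem cent_closed {L : ℕ} {e' : Fin L → Fin L → B} (hs : ∀ i j, star (e' i j) = e' j i) :
    IsClosed ((cent e' : StarSubalgebra ℂ B) : Set B) := by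
  have : ((cent e' : StarSubalgebra ℂ B) : Set B) =
      ⋂ i, ⋂ j, {b : B | e' i j * b = b * e' i j} := by
    ext b
    simp only [Set.mem_iInter, Set.mem_setOf_eq]
    exact mem_cent hs b
  rw [this]
  exact isClosed_iInter fun i => isClosed_iInter fun j =>
    isClosed_eq (continuous_const.mul continuous_id) (continuous_id.mul continuous_const)

end closed

end RB

open RB in
theorem dp_RB (h1 : V_dix.{0}) (h2 : R_comm) (h3 : R_mat) : R_B := by
  intro H _ _ _ M p hp hB B _ _ _ φ hsurj hcen hφp L₀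
  obtain ⟨L, hL, e, hMU, hbig⟩ := hB (max L₀ 1)
  have hL1 : 0 < L := lt_of_lt_of_le (by omega) hL
  refine ⟨L, (le_max_left _ _).trans hL, ?_⟩
  set i₀ : Fin L := ⟨0, hL1⟩ with hi₀
  obtain ⟨N₀, hN₀, hN₀c, hN₀s⟩ := h2 H M p hp L i₀ e hMU
  -- the units as elements of the algebra
  let E : Fin L → Fin L → M.toStarSubalgebra := fun i j => ⟨e i j, hMU.mem i j⟩
  have hEs : ∀ i j, star (E i j) = E j i := fun i j => Subtype.ext (hMU.adj i j)
  have hEm : ∀ i j k l, E i j * E k l = if j = k then E i l else 0 := by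
    intro i j k l
    apply Subtype.ext
    have h := hMU.mul i j k l
    by_cases hjk : j = k
    · rw [if_pos hjk] at h ⊢; exact h
    · rw [if_neg hjk] at h ⊢; exact h
  have hEsum : φ (∑ i, E i i) = 1 := by
    apply hφp
    have : ((∑ i, E i i : M.toStarSubalgebra) : H →L[ℂ] H) = ∑ i, e i i := by
      rw [AddSubmonoidClass.coe_finset_sum]
    rw [this]
    exact hMU.sum
  let e' : Fin L → Fin L → B := fun i j => φ (E i j)
  have hs : ∀ i j, star (e' i j) = e' j i := by
    intro i j
    show star (φ (E i j)) = φ (E j i)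
    rw [← map_star, hEs]
  have hm : ∀ i j k l, e' i j * e' k l = if j = k then e' i l else 0 := by
    intro i j k l
    show φ (E i j) * φ (E k l) = _
    rw [← map_mul, hEm]
    by_cases hjk : j = k
    · rw [if_pos hjk, if_pos hjk]
    · rw [if_neg hjk, if_neg hjk, map_zero]
  have hsum : ∑ i, e' i i = 1 := by
    rw [← hEsum, map_sum]
  have hNmem := mem_cent hs
  have hcl : IsClosed ((cent e' : StarSubalgebra ℂ B) : Set B) := cent_closed hs
  set N : StarSubalgebra ℂ B := cent e' with hNdef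
  haveI : IsClosed ((N : StarSubalgebra ℂ B) : Set B) := hcl
  letI iC : CStarAlgebra N := StarSubalgebra.cstarAlgebra N
  letI iP : PartialOrder N := CStarAlgebra.spectralOrder N
  haveI iS : StarOrderedRing N := CStarAlgebra.spectralOrderedRing N
  -- elements of `N₀` go to `N`
  have hto : ∀ y : M.toStarSubalgebra, (y : H →L[ℂ] H) ∈ N₀ → φ y ∈ N := by
    intro y hy
    rw [hNmem]
    intro i j
    have h := ((hN₀ _).1 hy).2 i j
    show φ (E i j) * φ y = φ y * φ (E i j)
    rw [← map_mul, ← map_mul]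
    congr 1
    exact Subtype.ext h
  refine ⟨N, iC, iP, iS, ?_, ?_, ?_⟩
  · -- averaging
    intro a ha ε hε
    -- lift
    obtain ⟨x, hx⟩ := hsurj (a : B)
    have haB : star (a : B) = (a : B) := by
      have := congrArg (fun z : N => (z : B)) ha.star_eq
      simpa using this
    let x1 : M.toStarSubalgebra := ∑ k, E k i₀ * x * E i₀ k
    have hx1 : (x1 : H →L[ℂ] H) ∈ N₀ := by
      have h := hN₀s (x : H →L[ℂ] H) x.2
      have e1 : (x1 : H →L[ℂ] H) = ∑ k, e k i₀ * (x : H →L[ℂ] H) * e i₀ k := by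
        show ((∑ k, E k i₀ * x * E i₀ k : M.toStarSubalgebra) : H →L[ℂ] H) = _
        rw [AddSubmonoidClass.coe_finset_sum]
        rfl
      rw [e1]; exact h
    have hφx1 : φ x1 = (a : B) := by
      show φ (∑ k, E k i₀ * x * E i₀ k) = (a : B)
      rw [map_sum]
      have haN : ∀ i j, e' i j * (a : B) = (a : B) * e' i j := (hNmem _).1 a.2
      calc ∑ k, φ (E k i₀ * x * E i₀ k) = ∑ k, (a : B) * e' k k := by
            apply Finset.sum_congr rfl
            intro k _
            rw [map_mul, map_mul, hx]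
            have h4 : φ (E k i₀) * (a : B) = (a : B) * φ (E k i₀) := haN k i₀
            rw [h4, mul_assoc]
            have h5 : φ (E k i₀) * φ (E i₀ k) = e' k k := by
              have := hm k i₀ i₀ k
              rw [if_pos rfl] at this
              exact this
            rw [h5]
        _ = (a : B) := by rw [← Finset.mul_sum, hsum, mul_one]
    let y : M.toStarSubalgebra := (1 / 2 : ℂ) • (x1 + star x1)
    have hyN : (y : H →L[ℂ] H) ∈ N₀ := by
      have h5 : star (x1 : H →L[ℂ] H) ∈ N₀ := star_mem hx1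
      have h6 : (x1 : H →L[ℂ] H) + star (x1 : H →L[ℂ] H) ∈ N₀ := add_mem hx1 h5
      have h7 : (x1 : H →L[ℂ] H) + star (x1 : H →L[ℂ] H) ∈ N₀.toStarSubalgebra := h6
      have h8 : (1 / 2 : ℂ) • ((x1 : H →L[ℂ] H) + star (x1 : H →L[ℂ] H)) ∈ N₀.toStarSubalgebra :=
        SMulMemClass.smul_mem (1 / 2 : ℂ) h7
      exact h8
    have hys : IsSelfAdjoint (y : H →L[ℂ] H) := by
      have : IsSelfAdjoint y := by
        show star y = y
        show star ((1 / 2 : ℂ) • (x1 + star x1)) = (1 / 2 : ℂ) • (x1 + star x1)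
        rw [star_smul, star_add, star_star, add_comm (star x1) x1]
        congr 1
        simp
      exact congrArg (fun z : M.toStarSubalgebra => (z : H →L[ℂ] H)) this.star_eq
    have hφy : φ y = (a : B) := by
      show φ ((1 / 2 : ℂ) • (x1 + star x1)) = (a : B)
      rw [map_smul, map_add, map_star, hφx1, haB, ← two_smul ℂ (a : B), smul_smul]
      norm_num
    obtain ⟨K, g, z, hg, hz, hzs, hbd⟩ := h1 H N₀ (y : H →L[ℂ] H) hyN hys ε hε
    -- the elements as elements of M
    have hgM : ∀ k, g k ∈ M := fun k => ((hN₀ _).1 (hg k).1).1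
    have hzM : IsCen M z := hN₀c z hz
    let G : Fin (K + 1) → M.toStarSubalgebra := fun k => ⟨g k, hgM k⟩
    let Z : M.toStarSubalgebra := ⟨z, hzM.1⟩
    obtain ⟨c, hc⟩ := hcen Z hzM
    have hGG : ∀ k, G k * star (G k) = 1 ∧ star (G k) * G k = 1 := fun k =>
      ⟨Subtype.ext (hg k).2.1, Subtype.ext (hg k).2.2⟩
    have hφG : ∀ k, φ (G k) ∈ N := fun k => hto (G k) (hg k).1
    let u : Fin (K + 1) → unitary N := fun k => ⟨⟨φ (G k), hφG k⟩, by
      rw [Unitary.mem_iff]
      constructor
      · apply Subtype.ext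
        show star (φ (G k)) * φ (G k) = 1
        rw [← map_star, ← map_mul, (hGG k).2, map_one]
      · apply Subtype.ext
        show φ (G k) * star (φ (G k)) = 1
        rw [← map_star, ← map_mul, (hGG k).1, map_one]⟩
    -- the main inequality
    let w : M.toStarSubalgebra := ((K + 1 : ℂ))⁻¹ • ∑ k, G k * y * star (G k) - Z
    have hw : ‖w‖ ≤ ε := by
      refine le_trans (le_of_eq ?_) hbd
      show ‖(w : H →L[ℂ] H)‖ = _
      congr 1
      show ((((K + 1 : ℂ))⁻¹ • ∑ k, G k * y * star (G k) - Z : M.toStarSubalgebra) : H →L[ℂ] H) = _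
      have e1 : ((∑ k, G k * y * star (G k) : M.toStarSubalgebra) : H →L[ℂ] H) =
          ∑ k, g k * (y : H →L[ℂ] H) * star (g k) := by
        rw [AddSubmonoidClass.coe_finset_sum]
        rfl
      calc ((((K + 1 : ℂ))⁻¹ • ∑ k, G k * y * star (G k) - Z : M.toStarSubalgebra) : H →L[ℂ] H)
          = ((K + 1 : ℂ))⁻¹ • ((∑ k, G k * y * star (G k) : M.toStarSubalgebra) : H →L[ℂ] H) -
            (Z : H →L[ℂ] H) := rfl
        _ = _ := by rw [e1]
    have hφw : ‖φ w‖ ≤ ε := (NonUnitalStarAlgHom.norm_apply_le φ w).trans hw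
    have hφw' : φ w = ((K + 1 : ℂ))⁻¹ • ∑ k, φ (G k) * (a : B) * star (φ (G k)) -
        algebraMap ℂ B c := by
      show φ (((K + 1 : ℂ))⁻¹ • ∑ k, G k * y * star (G k) - Z) = _
      rw [map_sub, map_smul, map_sum, hc]
      congr 2
      apply Finset.sum_congr rfl
      intro k _
      rw [map_mul, map_mul, map_star, hφy]
    -- realness of c
    have hcre : algebraMap ℂ B c = algebraMap ℂ B ((c.re : ℝ) : ℂ) := by
      rcases subsingleton_or_nontrivial B with hB1 | hB1
      · exact Subsingleton.elim _ _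
      · have hZs : star Z = Z := Subtype.ext hzs.star_eq
        have h7 : star (algebraMap ℂ B c) = algebraMap ℂ B c := by
          rw [← hc, ← map_star, hZs]
        rw [← algebraMap_star_comm] at h7
        have h8 : star c = c := (algebraMap ℂ B).injective h7
        have h9 : ((c.re : ℝ) : ℂ) = c := Complex.conj_eq_iff_re.1 h8
        rw [h9]
    refine ⟨c.re, K, u, ?_⟩
    have hfin : ‖((K + 1 : ℂ))⁻¹ • ∑ k, φ (G k) * (a : B) * star (φ (G k)) -
        algebraMap ℂ B ((c.re : ℝ) : ℂ)‖ ≤ ε := by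
      rw [← hcre, ← hφw']; exact hφw
    refine le_trans (le_of_eq ?_) hfin
    show ‖((((K + 1 : ℂ))⁻¹ • ∑ k, (u k : N) * a * star (u k : N) -
      algebraMap ℂ N ((c.re : ℝ) : ℂ) : N) : B)‖ = _
    congr 1
    have e2 : ((∑ k, (u k : N) * a * star (u k : N) : N) : B) =
        ∑ k, φ (G k) * (a : B) * star (φ (G k)) := by
      rw [AddSubmonoidClass.coe_finset_sum]
      rfl
    calc ((((K + 1 : ℂ))⁻¹ • ∑ k, (u k : N) * a * star (u k : N) -
          algebraMap ℂ N ((c.re : ℝ) : ℂ) : N) : B)
        = ((K + 1 : ℂ))⁻¹ • ((∑ k, (u k : N) * a * star (u k : N) : N) : B) -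
          algebraMap ℂ B ((c.re : ℝ) : ℂ) := rfl
      _ = _ := by rw [e2]
  · -- matrix units
    intro K₀
    obtain ⟨K, hK, f, hf, hcomm⟩ := hbig K₀
    refine ⟨K, hK, ?_⟩
    let F : Fin K → Fin K → M.toStarSubalgebra := fun i j => ⟨f i j, hf.mem i j⟩
    have hFN : ∀ i j, φ (F i j) ∈ N := by
      intro a b
      apply hto
      rw [hN₀]
      exact ⟨hf.mem a b, fun i j => hcomm i j a b⟩
    refine ⟨fun i j => ⟨φ (F i j), hFN i j⟩, ?_, ?_, ?_⟩
    · intro i j
      apply Subtype.ext
      show star (φ (F i j)) = φ (F j i)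
      rw [← map_star]
      congr 1
      exact Subtype.ext (hf.adj i j)
    · intro i j k l
      apply Subtype.ext
      have h := hf.mul i j k l
      by_cases hjk : j = k
      · rw [if_pos hjk] at h ⊢
        show φ (F i j) * φ (F k l) = φ (F i l)
        rw [← map_mul]
        congr 1
        exact Subtype.ext h
      · rw [if_neg hjk] at h ⊢
        show φ (F i j) * φ (F k l) = 0
        rw [← map_mul, ← map_zero φ]
        congr 1
        exact Subtype.ext h
    · apply Subtype.ext
      rw [AddSubmonoidClass.coe_finset_sum]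
      show ∑ i, φ (F i i) = 1
      rw [← map_sum]
      apply hφp
      rw [AddSubmonoidClass.coe_finset_sum]
      exact hf.sum
  · exact h3 B L e' hL1 hs hm hsum N hNmem

end H710R2.DP
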