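import Mathlib
import Pool.Agent.H710R2.DP.Defs
import Pool.Agent.H710R2.DP.Defs2
import Pool.Agent.H710R2.DP.Tasks

set_option linter.all false

open scoped ComplexOrder InnerProductSpace ComplexConjugate
open Finset

noncomputable section

namespace H710R2.DP

open H759R2.Kad

theorem dp_unit (h : U_main) : U_unit := by
  intro A _ H _ _ _ π δ hδ
  let f : Unitization ℂ A →L[ℂ] A :=
    { toLinearMap := Unitization.sndHom ℂ ℂ A
      cont := Unitization.continuous_snd }
  have hf : ∀ x, f x = x.snd := fun x => rfl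
  let D : Unitization ℂ A →L[ℂ] (H →L[ℂ] H) := δ.comp f
  have hD : ∀ x, D x = δ x.snd := fun x => rfl
  let π1 : Unitization ℂ A →⋆ₐ[ℂ] (H →L[ℂ] H) := Unitization.starLift π
  have hπ : ∀ x, π1 x = algebraMap ℂ (H →L[ℂ] H) x.fst + π x.snd := fun x => rfl
  have hder : IsDerB π1 (D : Unitization ℂ A →ₗ[ℂ] (H →L[ℂ] H)) ‖D‖ := by
    constructor
    · intro a b
      have h1 : ((D : Unitization ℂ A →ₗ[ℂ] (H →L[ℂ] H)) (a * b)) = δ (a * b).snd := rfl
      have h2 : ((D : Unitization ℂ A →ₗ[ℂ] (H →L[ℂ] H)) a) = δ a.snd := rfl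
      have h3 : ((D : Unitization ℂ A →ₗ[ℂ] (H →L[ℂ] H)) b) = δ b.snd := rfl
      rw [h1, h2, h3, Unitization.snd_mul, hπ, hπ, map_add, map_add, map_smul, map_smul, hδ]
      rw [add_mul, mul_add, ← Algebra.commutes b.fst, ← Algebra.smul_def, ← Algebra.smul_def]
      abel
    · intro a
      exact D.le_opNorm a
  obtain ⟨T, hT⟩ := h (Unitization ℂ A) H π1 (D : Unitization ℂ A →ₗ[ℂ] (H →L[ℂ] H)) ‖D‖
    (norm_nonneg _) hder
  refine ⟨-T, fun a => ?_⟩
  have h1 := hT (a : Unitization ℂ A)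
  have h2 : ((D : Unitization ℂ A →ₗ[ℂ] (H →L[ℂ] H)) (a : Unitization ℂ A)) = δ a := by
    show δ ((a : Unitization ℂ A).snd) = δ a
    rw [Unitization.snd_inr]
  have h3 : π1 (a : Unitization ℂ A) = π a := by
    rw [hπ, Unitization.fst_inr, Unitization.snd_inr, map_zero, zero_add]
  rw [h2, h3] at h1
  rw [h1]
  simp only [mul_neg, neg_mul, sub_neg_eq_add]
  abel

end H710R2.DP
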